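import Pool.Agent.H905R3.DML.Stmts

/-!
# Assembly of the main theorem
-/

set_option autoImplicit false

namespace Pool.Agent.H905R3.DML.Assembly

open MvPolynomial Pool.Agent.H936R2 Pool.Agent.H905R3.DML

theorem map_bpoly {R S : Type} [CommRing R] [CommRing S] (φ : R →+* S) {n d : ℕ}
    (c : (Fin n → Fin (d + 1)) → R) : map φ (bpoly c) = bpoly fun κ => φ (c κ) := by
  simp [bpoly, map_sum, map_monomial]

theorem map_psys {R S : Type} [CommRing R] [CommRing S] (φ : R →+* S) {r : ℕ} {n : Fin r → ℕ}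
    {d : ℕ} (v : Idx r n d → R) (q : Var r n) :
    map φ (psys v q) = psys (fun i => φ (v i)) q := by
  unfold psys bsys
  rw [map_rename, map_bpoly]

theorem modp_psys (p : ℕ) {r : ℕ} {n : Fin r → ℕ} {d : ℕ} (v : Idx r n d → ℤ) :
    modp p (psys v) = psys fun i => ((v i : ℤ) : ZMod p) := by
  funext q
  unfold modp
  rw [map_psys]
  rfl

theorem good_block (hTable : TaskTable) (hCount : TaskCount) (p : ℕ) [Fact p.Prime] (n d : ℕ)
    (hd : 2 * p ≤ d) :
    (Nat.card {c : CI n d → ZMod p // GoodBlock c} : ℝ) =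
      prob p n * (p : ℝ) ^ Fintype.card (CI n d) := by
  have h1 := hTable p n d hd {A | GoodTable A}
  have h2 := hCount p n
  have h3 : Nat.card (CI n d → ZMod p) = p ^ Fintype.card (CI n d) := by
    rw [Nat.card_eq_fintype_card, Fintype.card_fun, ZMod.card]
  have h4 : (0 : ℝ) < Nat.card (Table p n) := by
    have : 0 < Nat.card (Table p n) := Nat.card_pos
    exact_mod_cast this
  have h5 : ((Nat.card {c : CI n d → ZMod p // btab c ∈ {A : Table p n | GoodTable A}} : ℕ) : ℝ) *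
      (Nat.card (Table p n) : ℝ) =
      (Nat.card ({A : Table p n | GoodTable A} : Set (Table p n)) : ℝ) *
        (p : ℝ) ^ Fintype.card (CI n d) := by
    rw [h3] at h1
    exact_mod_cast h1
  have h6 : (Nat.card ({A : Table p n | GoodTable A} : Set (Table p n)) : ℝ) =
      (Nat.card {A : Table p n // GoodTable A} : ℝ) := rfl
  have h7 : Nat.card {c : CI n d → ZMod p // GoodBlock c} =
      Nat.card {c : CI n d → ZMod p // btab c ∈ {A : Table p n | GoodTable A}} := rfl
  rw [h7]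
  rw [h6, h2] at h5
  have h8 : ((Nat.card {c : CI n d → ZMod p // btab c ∈ {A : Table p n | GoodTable A}} : ℕ) : ℝ) *
      (Nat.card (Table p n) : ℝ) =
      (prob p n * (p : ℝ) ^ Fintype.card (CI n d)) * (Nat.card (Table p n) : ℝ) := by
    rw [h5]; ring
  exact mul_right_cancel₀ h4.ne' h8

theorem prod_bound (r : ℕ) (n : Fin r → ℕ) (h3 : ∀ i j, n i = 3 → n j = 3 → i = j) (c : ℝ)
    (hc : 0 < c) (p : ℝ) (hp : 1 ≤ p) :
    c ^ r / p ≤ ∏ i, (if n i = 3 then c / p else c) := by
  have h1 : ∀ i, (if n i = 3 then c / p else c) = c * (if n i = 3 then 1 / p else 1) := by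
    intro i
    split_ifs
    · ring
    · ring
  simp only [h1, Finset.prod_mul_distrib, Finset.prod_const, Finset.card_univ, Fintype.card_fin]
  rw [div_eq_mul_one_div]
  apply mul_le_mul_of_nonneg_left _ (by positivity)
  by_cases h : ∃ i, n i = 3
  · obtain ⟨i, hi⟩ := h
    rw [Finset.prod_eq_single i]
    · rw [if_pos hi]
    · intro j _ hji
      rw [if_neg]
      intro hj
      exact hji (h3 j i hj hi)
    · intro h
      exact absurd (Finset.mem_univ i) h
  · push Not at h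
    rw [Finset.prod_eq_one]
    · rw [div_le_one (by linarith)]
      exact hp
    · intro i _
      rw [if_neg (h i)]

theorem prod_le_exp (P : Finset ℕ) (δ : ℕ → ℝ) (hδ : ∀ p ∈ P, δ p ≤ 1) :
    ∏ p ∈ P, (1 - δ p) ≤ Real.exp (-∑ p ∈ P, δ p) := by
  rw [← Finset.sum_neg_distrib, Real.exp_sum]
  apply Finset.prod_le_prod
  · intro p hp
    linarith [hδ p hp]
  · intro p _
    have := Real.add_one_le_exp (-δ p)
    linarith

theorem quality (hCore : TaskCore) (hBlock : TaskBlock) (hIntegral : TaskIntegral)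
    (p : ℕ) [hpp : Fact p.Prime] (r : ℕ) (n : Fin r → ℕ) (d : ℕ) (L : Subfield ℂ) (M : ℕ)
    (hpM : ¬ p ∣ M) (τ : ℂ →+* PadicAlgCl p)
    (hτ : ∀ x ∈ L, ∃ y : ℚ_[p], τ x = algebraMap ℚ_[p] (PadicAlgCl p) y)
    (v : Idx r n d → ℤ)
    (hv : ∀ i, GoodBlock fun e : CI (n i) d => ((v ⟨i, e⟩ : ℤ) : ZMod p)) :
    DMLInt L M (psys v) := by
  intro α hα
  choose y0 hy0 using fun q => hτ (α q) (hα q).1
  have hy1 : ∀ q, ‖y0 q‖ ≤ 1 := fun q =>
    hIntegral p M hpM τ (α q) (y0 q) (hy0 q) (hα q).2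
  apply hCore p (Var r n) (psys v) α τ (fun q => ⟨y0 q, hy1 q⟩) hy0
  rw [modp_psys]
  exact hBlock p r n d (fun i => ((v i : ℤ) : ZMod p)) hv _

theorem main (hCore : TaskCore) (hBlock : TaskBlock) (hTable : TaskTable) (hCount : TaskCount)
    (hBounds : TaskBounds) (hDensity : TaskDensity) (hProduct : TaskProduct)
    (hPrimes : TaskPrimes) (hIntegral : TaskIntegral) : Main := by
  intro r n hn h3 s M hM ε hε
  obtain ⟨c₁, hc₁, hb⟩ := hBounds
  set c : ℝ := min c₁ 1 with hcdef
  have hc : 0 < c := lt_min hc₁ one_pos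
  have hc1 : c ≤ 1 := min_le_right _ _
  have hcr : 0 < c ^ r := pow_pos hc r
  have hcr1 : c ^ r ≤ 1 := pow_le_one₀ hc.le hc1
  obtain ⟨d₀, hd₀⟩ := hPrimes s M hM (-Real.log (ε / 2) / c ^ r)
  refine ⟨d₀, fun d hd => ?_⟩
  obtain ⟨P, hP, hT⟩ := hd₀ d hd
  let G : ∀ p : ℕ, Set (Idx r n d → ZMod p) := fun p => {v | ∀ i, GoodBlock fun e => v ⟨i, e⟩}
  have hδ1 : ∀ p ∈ P, c ^ r / (p : ℝ) ≤ 1 := by
    intro p hp
    obtain ⟨-, -, hpp, -⟩ := hP p hp
    have h1 : (1 : ℝ) ≤ p := by exact_mod_cast hpp.out.one_le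
    rw [div_le_one (by linarith)]
    linarith
  have hG : ∀ p ∈ P, c ^ r / (p : ℝ) * (p : ℝ) ^ Fintype.card (Idx r n d) ≤
      (Nat.card (G p) : ℝ) := by
    intro p hp
    obtain ⟨h2p, -, hpp, -⟩ := hP p hp
    have hp1 : (1 : ℝ) ≤ p := by exact_mod_cast hpp.out.one_le
    obtain ⟨hb1, hb2, hb3⟩ := hb p
    have h4 := hProduct p r n d (fun i => {c | GoodBlock c})
      (fun i => if n i = 3 then c / p else c) (fun i => by
        split_ifs
        · positivity
        · exact hc.le) (fun i => by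
        have h5 := good_block hTable hCount p (n i) d h2p
        have h6 : (Nat.card ({c | GoodBlock c} : Set (CI (n i) d → ZMod p)) : ℝ) =
          (Nat.card {c : CI (n i) d → ZMod p // GoodBlock c} : ℝ) := rfl
        rw [h6, h5]
        apply mul_le_mul_of_nonneg_right _ (by positivity)
        have h7 := hn i
        have hcc : c ≤ c₁ := min_le_left _ _
        split_ifs with h8
        · rw [h8]
          refine le_trans ?_ hb3
          apply div_le_div_of_nonneg_right hcc (by linarith)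
        · have h9 : n i = 1 ∨ n i = 2 := by omega
          rcases h9 with h9 | h9
          · rw [h9]; linarith
          · rw [h9]; linarith)
    refine le_trans ?_ h4
    apply mul_le_mul_of_nonneg_right _ (by positivity)
    exact prod_bound r n h3 c hc p hp1
  have hQ : ∀ v : Idx r n d → ℤ, ∀ p ∈ P, (fun i => (v i : ZMod p)) ∈ G p →
      DMLInt (Subfield.closure (s : Set ℂ)) M (psys v) := by
    intro v p hp hv
    obtain ⟨-, hpM, hpp, τ, hτ⟩ := hP p hp
    exact quality hCore hBlock hIntegral p r n d _ M hpM τ hτ v hv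
  obtain ⟨H₀, hH₀⟩ := hDensity (Idx r n d)
    (fun v => DMLInt (Subfield.closure (s : Set ℂ)) M (psys v)) P G
    (fun p => c ^ r / p) (fun p hp => (hP p hp).2.2.choose.out) hδ1 hG hQ
  refine ⟨H₀, fun H hH => (hH₀ H hH).trans ?_⟩
  apply mul_le_mul_of_nonneg_right _ (by positivity)
  have h4 := prod_le_exp P (fun p => c ^ r / p) hδ1
  have h5 : ∑ p ∈ P, c ^ r / (p : ℝ) = c ^ r * ∑ p ∈ P, 1 / (p : ℝ) := by
    rw [Finset.mul_sum]
    apply Finset.sum_congr rfl
    intro p _
    ring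
  have h6 : Real.exp (-∑ p ∈ P, c ^ r / (p : ℝ)) ≤ ε / 2 := by
    rw [← Real.exp_log (by positivity : 0 < ε / 2)]
    apply Real.exp_le_exp.2
    rw [h5]
    rw [div_le_iff₀ hcr] at hT
    linarith
  linarith

end Pool.Agent.H905R3.DML.Assembly
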