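import Pool.Agent.H905R3.DML.Stmts

set_option autoImplicit false

namespace Pool.Agent.H905R3.DML.Block

open MvPolynomial Pool.Agent.H936R2 Pool.Agent.H905R3.DML

theorem ev_per {X : Type} [Finite X] (f : X → X) (x : X) :
    ∃ M : ℕ, ∀ k, M ≤ k → f^[k] x ∈ Function.periodicPts f := by
  obtain ⟨a, b, hab, h⟩ := Finite.exists_ne_map_eq_of_infinite (fun k : ℕ => f^[k] x)
  wlog hlt : a < b generalizing a b
  · exact this b a hab.symm h.symm (by omega)
  refine ⟨a, fun k hk => ⟨b - a, by omega, ?_⟩⟩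
  change f^[b - a] (f^[k] x) = f^[k] x
  obtain ⟨c, rfl⟩ := Nat.exists_eq_add_of_le hk
  rw [← Function.iterate_add_apply, show b - a + (a + c) = c + b by omega,
    Function.iterate_add_apply, ← h, ← Function.iterate_add_apply, Nat.add_comm c a]

variable {p : ℕ} {r : ℕ} {n : Fin r → ℕ} {d : ℕ}

theorem semiconj (v : Idx r n d → ZMod p) (i : Fin r) :
    Function.Semiconj (fun (w : Var r n → ZMod p) (j : Fin (n i)) => w ⟨i, j⟩) (pt (psys v))
      (pt (bsys fun e => v ⟨i, e⟩)) := by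
  intro w
  funext j
  simp only [pt, psys, eval_rename]
  rfl

theorem iter (v : Idx r n d → ZMod p) (i : Fin r) (k : ℕ) (w : Var r n → ZMod p) :
    (fun j : Fin (n i) => (pt (psys v))^[k] w ⟨i, j⟩) =
      (pt (bsys fun e => v ⟨i, e⟩))^[k] (fun j => w ⟨i, j⟩) :=
  (semiconj v i).iterate_right k w

theorem jac_psys (v : Idx r n d → ZMod p) (x : Var r n → ZMod p) :
    jac (psys v) x =
      Matrix.blockDiagonal' (fun i => jac (bsys fun e => v ⟨i, e⟩) (fun j => x ⟨i, j⟩)) := by
  ext ⟨i, a⟩ ⟨j, b⟩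
  by_cases hij : i = j
  · subst hij
    rw [Matrix.blockDiagonal'_apply_eq]
    simp only [jac, psys]
    have hinj : Function.Injective (fun k => (⟨i, k⟩ : Var r n)) := by
      intro k l hkl
      simpa using hkl
    have := pderiv_rename hinj b (bsys (fun e => v ⟨i, e⟩) a)
    rw [this, eval_rename]
    rfl
  · rw [Matrix.blockDiagonal'_apply_ne _ _ _ hij]
    simp only [jac, psys]
    rw [pderiv_eq_zero_of_notMem_vars]
    · simp
    · intro hmem
      have := vars_rename _ _ hmem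
      rw [Finset.mem_image] at this
      obtain ⟨k, -, hk⟩ := this
      exact hij (congrArg Sigma.fst hk)

theorem det_ne {r : ℕ} {n : Fin r → ℕ} (A : ∀ i : Fin r, Matrix (Fin (n i)) (Fin (n i)) (ZMod p))
    [Fact p.Prime] (h : ∀ i, (A i).det ≠ 0) : (Matrix.blockDiagonal' A).det ≠ 0 := by
  have h1 : Matrix.blockDiagonal' A * Matrix.blockDiagonal' (fun i => (A i)⁻¹) = 1 := by
    rw [← Matrix.blockDiagonal'_mul]
    have : (fun k => A k * (A k)⁻¹) = (1 : ∀ i : Fin r, Matrix (Fin (n i)) (Fin (n i)) (ZMod p)) := by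
      funext i
      exact Matrix.mul_nonsing_inv _ (isUnit_iff_ne_zero.2 (h i))
    rw [this, Matrix.blockDiagonal'_one]
  intro h0
  have h2 := congrArg Matrix.det h1
  rw [Matrix.det_mul, h0, zero_mul, Matrix.det_one] at h2
  exact zero_ne_one h2

theorem taskBlock : TaskBlock := by
  intro p _ r n d v hv w
  choose M hM using fun i : Fin r => ev_per (pt (bsys fun e => v ⟨i, e⟩)) (fun j => w ⟨i, j⟩)
  refine ⟨Finset.univ.sup M, fun k hk => ?_⟩
  rw [jac_psys]
  have hdet : ∀ i, (jac (bsys fun e => v ⟨i, e⟩)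
      (fun j => (pt (psys v))^[k] w ⟨i, j⟩)).det ≠ 0 := by
    intro i
    rw [iter v i k w]
    exact hv i _ (hM i k ((Finset.le_sup (Finset.mem_univ i)).trans hk))
  exact det_ne _ hdet

end Pool.Agent.H905R3.DML.Block
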