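import Pool.Agent.H905R3.DML.Stmts
import Pool.Agent.H927R2.RD.T5
import Pool.Agent.H927R2.RD.T6
import Pool.Agent.H927R2.RD.T7

set_option autoImplicit false

namespace Pool.Agent.H905R3.DML.Bounds

open Pool.Agent.H927R2.RD

lemma card_X (p n : ℕ) [Fact p.Prime] : Fintype.card (Fin n → ZMod p) = p ^ n := by
  rw [Fintype.card_fun, ZMod.card, Fintype.card_fin]

lemma gg_one (p : ℕ) : gg p 1 = 1 - 1 / (p : ℝ) := by
  unfold gg
  rw [Finset.prod_range_one]
  norm_num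

lemma gg_two (p : ℕ) : gg p 2 = (1 - 1 / (p : ℝ)) * (1 - 1 / (p : ℝ) ^ 2) := by
  unfold gg
  rw [Finset.prod_range_succ, Finset.prod_range_one]
  norm_num

lemma gg_three (p : ℕ) : gg p 3 = (1 - 1 / (p : ℝ)) * (1 - 1 / (p : ℝ) ^ 2) * (1 - 1 / (p : ℝ) ^ 3) := by
  unfold gg
  rw [Finset.prod_range_succ, Finset.prod_range_succ, Finset.prod_range_one]
  norm_num

lemma gg_pos (p n : ℕ) (hp : 2 ≤ p) : 0 < gg p n := by
  apply Finset.prod_pos
  intro j _
  have h1 : (1 : ℝ) < (p : ℝ) ^ (j + 1) :=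
    one_lt_pow₀ (by exact_mod_cast (by omega : 1 < p)) (by omega)
  have h2 : 1 / (p : ℝ) ^ (j + 1) < 1 := by
    rw [div_lt_one (by linarith)]
    exact h1
  linarith

lemma gg_le_one (p n : ℕ) (hp : 2 ≤ p) : gg p n ≤ 1 := by
  apply Finset.prod_le_one
  · intro j _
    have h1 : (1 : ℝ) ≤ (p : ℝ) ^ (j + 1) := one_le_pow₀ (by exact_mod_cast (by omega : 1 ≤ p))
    have h2 : 1 / (p : ℝ) ^ (j + 1) ≤ 1 := by
      rw [div_le_one (by linarith)]
      exact h1
    linarith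
  · intro j _
    have : (0 : ℝ) ≤ 1 / (p : ℝ) ^ (j + 1) := by positivity
    linarith

lemma low_two (p n J : ℕ) [hp : Fact p.Prime] (hJ : p ^ n ≤ J ^ 2) :
    gg p n ^ (2 * J + 1) ≤ prob p n := by
  have h2 := random_map_two (X := Fin n → ZMod p) (gg p n) (gg_pos p n hp.out.two_le)
    (gg_le_one p n hp.out.two_le) J (by rw [card_X]; exact hJ)
  rw [card_X] at h2
  have hp0 : (0 : ℝ) < p := by exact_mod_cast hp.out.pos
  have hM : (0 : ℝ) < ((p : ℝ) ^ n) ^ (p ^ n) := by positivity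
  unfold prob
  rw [le_div_iff₀ hM]
  push_cast at h2
  exact h2

lemma low_three (p n J : ℕ) [hp : Fact p.Prime] :
    gg p n ^ J * (1 - ∏ i ∈ Finset.range (J + 1), (1 - (i : ℝ) / (p : ℝ) ^ n)) ≤ prob p n := by
  classical
  have h2 := random_map_three (X := Fin n → ZMod p) J
  rw [card_X] at h2
  push_cast at h2
  have hp0 : (0 : ℝ) < p := by exact_mod_cast hp.out.pos
  have hM : (0 : ℝ) < ((p : ℝ) ^ n) ^ (p ^ n) := by positivity
  have hr0 := (gg_pos p n hp.out.two_le).le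
  have hr1 := gg_le_one p n hp.out.two_le
  have h6 : gg p n ^ J * ((Finset.univ.filter fun φ : (Fin n → ZMod p) → (Fin n → ZMod p) => nper φ ≤ J).card : ℝ) ≤
      ∑ φ : (Fin n → ZMod p) → (Fin n → ZMod p), gg p n ^ nper φ := by
    calc gg p n ^ J * ((Finset.univ.filter fun φ : (Fin n → ZMod p) → (Fin n → ZMod p) => nper φ ≤ J).card : ℝ)
        = ∑ φ ∈ Finset.univ.filter (fun φ : (Fin n → ZMod p) → (Fin n → ZMod p) => nper φ ≤ J), gg p n ^ J := by
          rw [Finset.sum_const, nsmul_eq_mul, mul_comm]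
      _ ≤ ∑ φ ∈ Finset.univ.filter (fun φ : (Fin n → ZMod p) → (Fin n → ZMod p) => nper φ ≤ J), gg p n ^ nper φ := by
          apply Finset.sum_le_sum
          intro φ hφ
          exact pow_le_pow_of_le_one hr0 hr1 (Finset.mem_filter.1 hφ).2
      _ ≤ _ := Finset.sum_le_sum_of_subset_of_nonneg (Finset.filter_subset _ _)
          fun φ _ _ => pow_nonneg hr0 _
  unfold prob
  rw [le_div_iff₀ hM]
  calc _ = gg p n ^ J * ((1 - ∏ i ∈ Finset.range (J + 1),
          (1 - (i : ℝ) / (p : ℝ) ^ n)) * ((p : ℝ) ^ n) ^ (p ^ n)) := by ring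
      _ ≤ gg p n ^ J * ((Finset.univ.filter fun φ : (Fin n → ZMod p) → (Fin n → ZMod p) => nper φ ≤ J).card : ℝ) :=
        mul_le_mul_of_nonneg_left h2 (pow_nonneg hr0 _)
      _ ≤ _ := h6

lemma one_bound (p : ℕ) [hp : Fact p.Prime] : (1 / 8 : ℝ) ^ 3 ≤ prob p 1 := by
  have h2 := hp.out.two_le
  refine le_trans ?_ (low_two p 1 p (by nlinarith))
  obtain ⟨hq0, hq1⟩ := T7_q p h2
  have hb := T7_base p h2
  rw [gg_one]
  calc (1 / 8 : ℝ) ^ 3 ≤ ((1 - 1 / (p : ℝ)) ^ p) ^ 3 := pow_le_pow_left₀ (by norm_num) hb 3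
      _ = (1 - 1 / (p : ℝ)) ^ (p * 3) := by rw [← pow_mul]
      _ ≤ _ := pow_le_pow_of_le_one hq0.le hq1 (by omega)

lemma two_bound (p : ℕ) [hp : Fact p.Prime] : (1 / 8 : ℝ) ^ 5 ≤ prob p 2 := by
  have h2 := hp.out.two_le
  refine le_trans ?_ (low_two p 2 p le_rfl)
  obtain ⟨hq0, hq1⟩ := T7_q p h2
  have hb := T7_base p h2
  have hrr : (1 - 1 / (p : ℝ)) ^ 2 ≤ gg p 2 := by
    rw [gg_two, sq]
    exact mul_le_mul_of_nonneg_left (T7_le p 2 h2 (by norm_num)) hq0.le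
  calc (1 / 8 : ℝ) ^ 5 ≤ ((1 - 1 / (p : ℝ)) ^ p) ^ 5 := pow_le_pow_left₀ (by norm_num) hb 5
      _ = (1 - 1 / (p : ℝ)) ^ (p * 5) := by rw [← pow_mul]
      _ ≤ (1 - 1 / (p : ℝ)) ^ (2 * (2 * p + 1)) := pow_le_pow_of_le_one hq0.le hq1 (by omega)
      _ = ((1 - 1 / (p : ℝ)) ^ 2) ^ (2 * p + 1) := by rw [← pow_mul]
      _ ≤ _ := pow_le_pow_left₀ (by positivity) hrr _

lemma three_bound (p : ℕ) [hp : Fact p.Prime] : (1 / 8 : ℝ) ^ 3 * (1 / (4 * (p : ℝ))) ≤ prob p 3 := by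
  have h2 := hp.out.two_le
  refine le_trans ?_ (low_three p 3 p)
  have hp' : (2 : ℝ) ≤ p := by exact_mod_cast h2
  obtain ⟨hq0, hq1⟩ := T7_q p h2
  have hb := T7_base p h2
  set q : ℝ := 1 - 1 / (p : ℝ) with hq
  have hrr : q ^ 3 ≤ gg p 3 := by
    rw [gg_three, ← hq]
    have h2 := T7_le p 2 h2 (by norm_num)
    have h3 := T7_le p 3 hp.out.two_le (by norm_num)
    rw [← hq] at h2 h3
    calc q ^ 3 = q * q * q := by ring
      _ ≤ q * (1 - 1 / (p : ℝ) ^ 2) * (1 - 1 / (p : ℝ) ^ 3) :=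
        mul_le_mul (mul_le_mul_of_nonneg_left h2 hq0.le) h3 hq0.le
          (mul_nonneg hq0.le (hq0.le.trans h2))
  have hR : (1 / 8 : ℝ) ^ 3 ≤ gg p 3 ^ p := by
    calc (1 / 8 : ℝ) ^ 3 ≤ (q ^ p) ^ 3 := pow_le_pow_left₀ (by norm_num) hb 3
      _ = (q ^ 3) ^ p := by rw [← pow_mul, ← pow_mul, mul_comm]
      _ ≤ _ := pow_le_pow_left₀ (by positivity) hrr _
  set m : ℝ := (p : ℝ) ^ 3 with hm
  have hmpos : 0 < m := by positivity
  have hprod : ∏ i ∈ Finset.range (p + 1), (1 - (i : ℝ) / m) ≤ 1 - 1 / (4 * (p : ℝ)) := by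
    have h1 : ∏ i ∈ Finset.range (p + 1), (1 - (i : ℝ) / m) ≤
        ∏ i ∈ Finset.range (p + 1), Real.exp (-((i : ℝ) / m)) := by
      apply Finset.prod_le_prod
      · intro i hi
        rw [Finset.mem_range] at hi
        have h2 : (i : ℝ) ≤ p := by exact_mod_cast (by omega : i ≤ p)
        have h3 : (i : ℝ) / m ≤ 1 := by
          rw [div_le_one hmpos, hm]
          refine h2.trans (le_self_pow₀ (by linarith) (by norm_num))
        linarith
      · intro i _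
        have := Real.add_one_le_exp (-((i : ℝ) / m))
        linarith
    rw [← Real.exp_sum, Finset.sum_neg_distrib, ← Finset.sum_div] at h1
    have hsum : ∑ i ∈ Finset.range (p + 1), (i : ℝ) = (p : ℝ) * (p + 1) / 2 := by
      have h2 := Finset.sum_range_id_mul_two (p + 1)
      have h3 : ((∑ i ∈ Finset.range (p + 1), i : ℕ) : ℝ) * 2 = ((p : ℝ) + 1) * p := by
        have h4 : ((((∑ i ∈ Finset.range (p + 1), i) * 2 : ℕ)) : ℝ) =
            (((p + 1) * (p + 1 - 1) : ℕ) : ℝ) := by rw [h2]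
        rw [Nat.add_sub_cancel] at h4
        push_cast at h4 ⊢
        exact h4
      push_cast at h3
      linarith
    rw [hsum] at h1
    set x : ℝ := 1 / (2 * (p : ℝ)) with hx
    have hx0 : 0 ≤ x := by positivity
    have hx1 : x ≤ 1 := by
      rw [hx, div_le_one (by positivity)]
      linarith
    have h5 : x ≤ (p : ℝ) * (p + 1) / 2 / m := by
      rw [hx, div_div, div_le_div_iff₀ (by positivity) (by positivity), hm]
      have : 0 ≤ (p : ℝ) ^ 2 := by positivity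
      nlinarith
    have h6 : Real.exp (-((p : ℝ) * (p + 1) / 2 / m)) ≤ Real.exp (-x) :=
      Real.exp_le_exp.2 (by linarith)
    have h7 : Real.exp (-x) ≤ 1 - x / 2 := by
      rw [Real.exp_neg, inv_le_comm₀ (Real.exp_pos _) (by linarith)]
      have h8 := Real.add_one_le_exp x
      refine le_trans ?_ h8
      rw [inv_le_comm₀ (by linarith) (by linarith)]
      rw [← one_div, div_le_iff₀ (by linarith)]
      nlinarith
    have h9 : x / 2 = 1 / (4 * (p : ℝ)) := by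
      rw [hx]
      field_simp
      norm_num
    rw [← h9]
    linarith
  have hlast : 1 / (4 * (p : ℝ)) ≤ 1 - ∏ i ∈ Finset.range (p + 1), (1 - (i : ℝ) / m) := by
    linarith
  exact mul_le_mul hR hlast (by positivity) (le_trans (by positivity) hR)

end Pool.Agent.H905R3.DML.Bounds

namespace Pool.Agent.H905R3.DML

open Bounds in
theorem Bounds.taskBounds : TaskBounds := by
  refine ⟨(1 / 8 : ℝ) ^ 5, by positivity, fun p hp => ⟨?_, ?_, ?_⟩⟩
  · exact le_trans (by norm_num) (one_bound p)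
  · exact two_bound p
  · refine le_trans ?_ (three_bound p)
    have hp0 : (0 : ℝ) < p := by exact_mod_cast hp.out.pos
    rw [div_le_iff₀ hp0]
    have : (1 / 8 : ℝ) ^ 3 * (1 / (4 * (p : ℝ))) * p = (1 / 8 : ℝ) ^ 3 * (1 / 4) := by
      field_simp
    rw [this]
    norm_num

end Pool.Agent.H905R3.DML
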