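import Pool.Agent.H905R3.DML.Stmts
import Pool.Agent.H936R2.Crit

set_option autoImplicit false

/-! Dynamical Mordell-Lang along one orbit of an integral polynomial self-map of affine space:
the criterion modulo `p`. Adapted from `Pool.Agent.H927R2.RD.Core`. -/

namespace Pool.Agent.H905R3.DML.Core

open MvPolynomial Pool.Agent.H936R2 Pool.Agent.H905R3.DML

/-- The polynomials over a ring. -/
noncomputable def overR (R : Type) [CommRing R] {ι : Type} (F : ι → MvPolynomial ι ℤ) :
    ι → MvPolynomial ι R := fun i => map (Int.castRingHom R) (F i)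

lemma overR_map {R R' : Type} [CommRing R] [CommRing R'] {ι : Type} (φ : R →+* R')
    (F : ι → MvPolynomial ι ℤ) : (fun i => map φ (overR R F i)) = overR R' F := by
  funext i
  simp only [overR]
  rw [map_map]
  have h : φ.comp (Int.castRingHom R) = Int.castRingHom R' := RingHom.ext_int _ _
  rw [h]

theorem dml_core {p : ℕ} [hp : Fact p.Prime] {ι : Type} [Fintype ι] [DecidableEq ι]
    (F : ι → MvPolynomial ι ℤ)
    (α : ι → ℂ) (τ : ℂ →+* PadicAlgCl p)
    (b : ι → unitBall (PadicAlgCl p))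
    (hb : ∀ i, (b i : PadicAlgCl p) = τ (α i)) (M : ℕ)
    (hdet : ∀ n, M ≤ n → IsUnit (jac (overR (unitBall (PadicAlgCl p)) F)
      ((pt (overR (unitBall (PadicAlgCl p)) F))^[n] b)).det) :
    DMLAt F α := by
  intro S
  set FO := overR (unitBall (PadicAlgCl p)) F with hFO
  have hFK : (fun i => map (unitBall (PadicAlgCl p)).subtype (FO i)) = overR (PadicAlgCl p) F :=
    overR_map _ F
  have hit : ∀ n, (fun i => (((pt FO)^[n] b i : unitBall (PadicAlgCl p)) : PadicAlgCl p)) =
      fun i => τ ((cmap F)^[n] α i) := by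
    intro n
    have e1 := pt_map (unitBall (PadicAlgCl p)).subtype FO b n
    have e2 := pt_map τ (overR ℂ F) α n
    have e4 : (fun i => (unitBall (PadicAlgCl p)).subtype (b i)) = fun i => τ (α i) :=
      _root_.funext hb
    rw [hFK, e4] at e1
    rw [overR_map τ F] at e2
    rw [e2] at e1
    exact e1.symm
  obtain ⟨n0, k, hk, hret⟩ := return_set p FO b M hdet
  apply exists_progressions _ n0 k hk
  intro r hinf t
  have hiff : ∀ n, (∀ g ∈ S, eval ((cmap F)^[n] α) g = 0) ↔
      ∀ P ∈ (fun g => map τ g) '' S,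
        eval (fun i => (((pt FO)^[n] b i : unitBall (PadicAlgCl p)) : PadicAlgCl p)) P = 0 := by
    intro n
    have hval : ∀ g ∈ S,
        (eval (fun i => (((pt FO)^[n] b i : unitBall (PadicAlgCl p)) : PadicAlgCl p))
          (map τ g) = 0 ↔ eval ((cmap F)^[n] α) g = 0) := by
      intro g hg
      rw [hit n]
      have e1 : eval (fun i => τ ((cmap F)^[n] α i)) (map τ g) = τ (eval ((cmap F)^[n] α) g) := by
        rw [eval_map]
        have h := eval₂_comp_left τ (RingHom.id _) ((cmap F)^[n] α) g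
        rw [RingHom.comp_id] at h
        exact h.symm
      rw [e1, map_eq_zero]
    constructor
    · rintro h P ⟨g, hg, rfl⟩
      exact (hval g hg).2 (h g hg)
    · intro h g hg
      exact (hval g hg).1 (h _ ⟨g, hg, rfl⟩)
  simp only [Set.mem_ofPred_eq, hiff] at hinf ⊢
  exact hret _ r hinf t

theorem taskCore : TaskCore := by
  intro p hp ι _ _ G α τ y hy hM
  obtain ⟨M, hM⟩ := hM
  have hnorm : ∀ x : ℚ_[p], ‖algebraMap ℚ_[p] (PadicAlgCl p) x‖ = ‖x‖ := fun x => by
    simp
  let ψ : ℤ_[p] →+* unitBall (PadicAlgCl p) :=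
    ((algebraMap ℚ_[p] (PadicAlgCl p)).comp (algebraMap ℤ_[p] ℚ_[p])).codRestrict _ (by
      intro x
      change ‖algebraMap ℚ_[p] (PadicAlgCl p) (x : ℚ_[p])‖ ≤ 1
      rw [hnorm]
      exact x.2)
  have hψ : ∀ x : ℤ_[p], ((ψ x : unitBall (PadicAlgCl p)) : PadicAlgCl p) =
      algebraMap ℚ_[p] (PadicAlgCl p) (x : ℚ_[p]) := fun x => rfl
  apply dml_core G α τ (fun i => ψ (y i)) (by
      intro i
      rw [hψ, hy i]) M
  intro n hn
  have e1 := pt_map ψ (overR ℤ_[p] G) y n
  rw [overR_map] at e1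
  rw [e1]
  have e2 := jac_map ψ (overR ℤ_[p] G) ((pt (overR ℤ_[p] G))^[n] y)
  rw [overR_map] at e2
  rw [e2, ← RingHom.map_det]
  apply IsUnit.map
  have e3 := pt_map (PadicInt.toZMod : ℤ_[p] →+* ZMod p) (overR ℤ_[p] G) y n
  rw [overR_map] at e3
  have e4 := jac_map (PadicInt.toZMod : ℤ_[p] →+* ZMod p) (overR ℤ_[p] G)
    ((pt (overR ℤ_[p] G))^[n] y)
  rw [overR_map, ← e3] at e4
  have h6 := hM n hn
  change (jac (overR (ZMod p) G) ((pt (overR (ZMod p) G))^[n] _)).det ≠ 0 at h6
  rw [e4, ← RingHom.map_det] at h6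
  by_contra hnu
  apply h6
  have h7 : (jac (overR ℤ_[p] G) ((pt (overR ℤ_[p] G))^[n] y)).det ∈
      IsLocalRing.maximalIdeal ℤ_[p] := by
    rw [IsLocalRing.mem_maximalIdeal]
    exact hnu
  rw [← PadicInt.ker_toZMod] at h7
  exact h7

end Pool.Agent.H905R3.DML.Core
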