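import Pool.Agent.H905R3.DML.Stmts
import Pool.Agent.H927R2.RD.T4

set_option autoImplicit false

/-! Task Count of project H905-DML: the number of good tables. -/

namespace Pool.Agent.H905R3.DML.Count

open Pool.Agent.H927R2.RD

theorem prod_GL (p n : ℕ) [Fact p.Prime] : ((∏ i : Fin n, (p ^ n - p ^ (i : ℕ)) : ℕ) : ℝ) =
    (p : ℝ) ^ (n * n) * gg p n := by
  have hp : (p : ℝ) ≠ 0 := by
    have := (Fact.out : p.Prime).pos
    positivity
  have h1 : ((∏ i : Fin n, (p ^ n - p ^ (i : ℕ)) : ℕ) : ℝ) =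
      ∏ i ∈ Finset.range n, ((p : ℝ) ^ n * (1 - 1 / (p : ℝ) ^ (n - 1 - i + 1))) := by
    rw [Finset.prod_range, Nat.cast_prod]
    apply Finset.prod_congr rfl
    intro i _
    have hle : p ^ (i : ℕ) ≤ p ^ n := Nat.pow_le_pow_right (Fact.out : p.Prime).pos i.2.le
    rw [Nat.cast_sub hle]
    push_cast
    have h2 : n - 1 - (i : ℕ) + 1 = n - i := by have := i.2; omega
    rw [h2]
    have h3 : (p : ℝ) ^ n = (p : ℝ) ^ (i : ℕ) * (p : ℝ) ^ (n - i) := by
      rw [← pow_add, Nat.add_sub_cancel' i.2.le]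
    have h4 : (p : ℝ) ^ (n - (i : ℕ)) ≠ 0 := pow_ne_zero _ hp
    rw [mul_sub, mul_one, mul_one_div]
    congr 1
    rw [eq_div_iff h4, h3]
  rw [h1, Finset.prod_mul_distrib, Finset.prod_const, Finset.card_range, ← pow_mul,
    Finset.prod_range_reflect (fun j => 1 - 1 / (p : ℝ) ^ (j + 1)) n]
  rfl

theorem taskCount : TaskCount := by
  intro p _ n
  classical
  have hp2 := (Fact.out : p.Prime).two_le
  have hp0 : (p : ℝ) ≠ 0 := by positivity
  -- one point
  have hcount : ∀ Q : Prop, (Nat.card {M : Matrix (Fin n) (Fin n) (ZMod p) // Q → M.det ≠ 0} : ℝ) =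
      (p : ℝ) ^ (n * n) * (if Q then gg p n else 1) := by
    intro Q
    by_cases hQ : Q
    · rw [if_pos hQ, ← prod_GL, ← T4_cardGL (p := p) (n := n)]
      congr 1
      exact Nat.card_congr (Equiv.subtypeEquivRight fun M => ⟨fun h => h hQ, fun h _ => h⟩)
    · rw [if_neg hQ, mul_one]
      have h1 : Nat.card {M : Matrix (Fin n) (Fin n) (ZMod p) // Q → M.det ≠ 0} =
          Nat.card (Matrix (Fin n) (Fin n) (ZMod p)) :=
        Nat.card_congr (Equiv.subtypeUnivEquiv fun M h => absurd h hQ)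
      rw [h1, T4_cardM]
      push_cast
      rfl
  have hgood : Nat.card {A : Table p n // GoodTable A} =
      ∑ φ : (Fin n → ZMod p) → (Fin n → ZMod p), ∏ x,
        Nat.card {M : Matrix (Fin n) (Fin n) (ZMod p) //
          (x ∈ Function.periodicPts φ → M.det ≠ 0)} := by
    have e1 : ∀ φ : (Fin n → ZMod p) → (Fin n → ZMod p),
        ∏ x, Nat.card {M : Matrix (Fin n) (Fin n) (ZMod p) //
          (x ∈ Function.periodicPts φ → M.det ≠ 0)} =
        Nat.card {B : (Fin n → ZMod p) → Matrix (Fin n) (Fin n) (ZMod p) // ∀ x,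
          (x ∈ Function.periodicPts φ → (B x).det ≠ 0)} := by
      intro φ
      rw [← Nat.card_pi]
      exact (Nat.card_congr (Equiv.subtypePiEquivPi (p := fun (x : Fin n → ZMod p)
        (M : Matrix (Fin n) (Fin n) (ZMod p)) =>
          (x ∈ Function.periodicPts φ → M.det ≠ 0)))).symm
    rw [Finset.sum_congr rfl (fun φ _ => e1 φ), ← Nat.card_sigma]
    symm
    refine Nat.card_congr (Equiv.ofBijective
      (fun q => (⟨fun x => (q.1 x, q.2.1 x), fun x hx => q.2.2 x hx⟩ :
        {A : Table p n // GoodTable A})) ⟨?_, ?_⟩)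
    · rintro ⟨φ, B, hB⟩ ⟨ψ, B', hB'⟩ h
      have h0 : (fun x => (φ x, B x)) = (fun x => (ψ x, B' x)) := congrArg Subtype.val h
      have h1 : φ = ψ := funext fun x => congrArg Prod.fst (congrFun h0 x)
      have h2 : B = B' := funext fun x => congrArg Prod.snd (congrFun h0 x)
      subst h1
      subst h2
      rfl
    · rintro ⟨A, hA⟩
      exact ⟨⟨fun x => (A x).1, fun x => (A x).2, fun x hx => hA x hx⟩, rfl⟩
  have hV : Fintype.card (Fin n → ZMod p) = p ^ n := by
    rw [← Nat.card_eq_fintype_card, T4_cardV]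
  have hterm : ∀ φ : (Fin n → ZMod p) → (Fin n → ZMod p),
      ∏ x, (Nat.card {M : Matrix (Fin n) (Fin n) (ZMod p) //
          (x ∈ Function.periodicPts φ → M.det ≠ 0)} : ℝ) =
        ((p : ℝ) ^ (n * n)) ^ (p ^ n) * gg p n ^ nper φ := by
    intro φ
    rw [Finset.prod_congr rfl (fun x _ => hcount (x ∈ Function.periodicPts φ)),
      Finset.prod_mul_distrib, Finset.prod_const, Finset.card_univ, hV,
      Finset.prod_ite, Finset.prod_const_one, mul_one, Finset.prod_const]
    congr 2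
    unfold nper
    rw [Set.ncard_eq_toFinset_card']
    congr 1
    ext x
    simp
  have hTab : (Nat.card (Table p n) : ℝ) =
      ((p : ℝ) ^ n) ^ (p ^ n) * ((p : ℝ) ^ (n * n)) ^ (p ^ n) := by
    have h1 : Nat.card (Table p n) = (Nat.card (Fin n → ZMod p) *
        Nat.card (Matrix (Fin n) (Fin n) (ZMod p))) ^ (p ^ n) := by
      rw [← Nat.card_prod]
      unfold Table
      rw [Nat.card_fun, Nat.card_eq_fintype_card (α := Fin n → ZMod p), hV]
    rw [h1, T4_cardM, T4_cardV]
    push_cast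
    rw [mul_pow]
  rw [hgood, hTab]
  push_cast
  rw [Finset.sum_congr rfl (fun φ _ => hterm φ), ← Finset.mul_sum, prob]
  have hNN : ((p : ℝ) ^ n) ^ (p ^ n) ≠ 0 := pow_ne_zero _ (pow_ne_zero _ hp0)
  field_simp

end Pool.Agent.H905R3.DML.Count
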