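import Pool.Agent.H905R3.DML.Stmts
import Pool.Agent.H927R2.RD.Box

set_option autoImplicit false

/-! From residue classes to boxes. -/

namespace Pool.Agent.H905R3.DML.Density

open Pool.Agent.H905R3.DML Pool.Agent.H927R2.RD Filter

theorem taskDensity : TaskDensity := by
  intro ι _ Q P G δ hP hδ hG hQ
  classical
  set I := Fintype.card ι with hI
  set M : ℝ := ∏ p ∈ P, (p : ℝ) with hM
  have hM0 : 0 ≤ M := Finset.prod_nonneg fun p _ => Nat.cast_nonneg p
  have hlim : Tendsto (fun H : ℕ => ((2 * H + 1 : ℝ) + M) ^ I / (2 * H + 1 : ℝ) ^ I) atTop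
      (nhds 1) := by
    have h1 : Tendsto (fun H : ℕ => (1 + M / (2 * H + 1 : ℝ)) ^ I) atTop (nhds ((1 + 0) ^ I)) := by
      apply Tendsto.pow
      apply Tendsto.const_add
      apply Tendsto.div_atTop tendsto_const_nhds
      apply tendsto_atTop_add_const_right
      exact tendsto_natCast_atTop_atTop.const_mul_atTop (by norm_num)
    rw [add_zero, one_pow] at h1
    refine h1.congr fun H => ?_
    have h2 : (0 : ℝ) < 2 * H + 1 := by positivity
    rw [← div_pow]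
    congr 1
    field_simp
  have hev : ∀ᶠ H : ℕ in atTop, ((2 * H + 1 : ℝ) + M) ^ I / (2 * H + 1 : ℝ) ^ I < 2 :=
    hlim.eventually_lt_const (by norm_num)
  obtain ⟨H₀, hH₀⟩ := eventually_atTop.1 hev
  refine ⟨H₀, fun H hH => ?_⟩
  have hle : Nat.card {v : ι → ℤ // (∀ i, |v i| ≤ (H : ℤ)) ∧ ¬ Q v} ≤
      Nat.card {v : ι → ℤ // (∀ i, |v i| ≤ (H : ℤ)) ∧
        ∀ p ∈ P, (fun i => (v i : ZMod p)) ∈ (fun p => (G p)ᶜ) p} := by
    haveI : Finite {v : ι → ℤ // (∀ i, |v i| ≤ (H : ℤ)) ∧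
        ∀ p ∈ P, (fun i => (v i : ZMod p)) ∈ (fun p => (G p)ᶜ) p} := by
      apply Set.Finite.subset (s := {v : ι → ℤ | v ∈ Fintype.piFinset fun _ : ι =>
        Finset.Icc (-(H : ℤ)) H}) (Finset.finite_toSet _)
      rintro v ⟨h1, -⟩
      simp only [Set.mem_setOf_eq, Fintype.mem_piFinset, Finset.mem_Icc]
      intro i
      exact abs_le.1 (h1 i)
    apply Nat.card_le_card_of_injective (fun v => ⟨v.1, v.2.1, fun p hp h => v.2.2 (hQ v.1 p hp h)⟩)
    intro v w hvw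
    apply Subtype.ext
    exact congrArg (fun z => z.1) hvw
  have hbox := box_count P hP (fun p => (G p)ᶜ) H
  have hprod : (∏ p ∈ P, (Nat.card ((fun p => (G p)ᶜ) p : Set (ι → ZMod p)) : ℝ) /
      (p : ℝ) ^ Fintype.card ι) ≤ ∏ p ∈ P, (1 - δ p) := by
    apply Finset.prod_le_prod
    · intro p _
      positivity
    · intro p hp
      haveI : Fact p.Prime := ⟨hP p hp⟩
      have hp0 : (0 : ℝ) < (p : ℝ) ^ Fintype.card ι := by
        have := (hP p hp).pos
        positivity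
      rw [div_le_iff₀ hp0]
      have h1 : Nat.card ((G p)ᶜ : Set (ι → ZMod p)) + Nat.card (G p) =
          p ^ Fintype.card ι := by
        rw [Nat.card_coe_set_eq, Nat.card_coe_set_eq, Nat.add_comm, Set.ncard_add_ncard_compl,
          Nat.card_eq_fintype_card, Fintype.card_fun, ZMod.card]
      have h2 : (Nat.card ((G p)ᶜ : Set (ι → ZMod p)) : ℝ) + Nat.card (G p) =
          (p : ℝ) ^ Fintype.card ι := by exact_mod_cast h1
      have h3 := hG p hp
      have h4 : ((fun p => (G p)ᶜ) p : Set (ι → ZMod p)) = (G p)ᶜ := rfl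
      rw [h4]
      linarith
  have hprod0 : 0 ≤ ∏ p ∈ P, (1 - δ p) := Finset.prod_nonneg fun p hp => by
    linarith [hδ p hp]
  have hH2 := hH₀ H hH
  have hpos : (0 : ℝ) < (2 * H + 1 : ℝ) ^ I := by positivity
  rw [div_lt_iff₀ hpos] at hH2
  calc (Nat.card {v : ι → ℤ // (∀ i, |v i| ≤ (H : ℤ)) ∧ ¬ Q v} : ℝ) ≤ _ := by
        exact_mod_cast hle
    _ ≤ _ := hbox
    _ ≤ (∏ p ∈ P, (1 - δ p)) * ((2 * H + 1 : ℝ) + M) ^ I := by
        apply mul_le_mul_of_nonneg_right hprod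
        positivity
    _ ≤ (∏ p ∈ P, (1 - δ p)) * (2 * (2 * H + 1 : ℝ) ^ I) :=
        mul_le_mul_of_nonneg_left hH2.le hprod0
    _ = 2 * (∏ p ∈ P, (1 - δ p)) * (2 * H + 1 : ℝ) ^ I := by
        ring

end Pool.Agent.H905R3.DML.Density
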