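import Pool.Agent.H905R3.DML.Stmts

/-!
# Dynamical Mordell–Lang: integrality

An element of `ℚ_[p]` which is integral over `ℤ` up to powers of `M`, `p ∤ M`, has norm at most
one.
-/

set_option autoImplicit false

namespace Pool.Agent.H905R3.DML.Integral

open Pool.Agent.H905R3.DML

theorem norm_le_one_of_isIntegral {p : ℕ} [Fact p.Prime] (z : ℚ_[p]) (hz : IsIntegral ℤ z) :
    ‖z‖ ≤ 1 := by
  have h1 : IsIntegral ℤ_[p] z := hz.tower_top
  obtain ⟨w, hw⟩ := IsIntegrallyClosed.isIntegral_iff.mp h1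
  rw [← hw]
  exact w.2

theorem taskIntegral : TaskIntegral := by
  intro p _ M hM τ x y hτ ⟨e, he⟩
  have h1 : IsIntegral ℤ (τ ((M : ℂ) ^ e * x)) := map_isIntegral_int τ he
  have h2 : τ ((M : ℂ) ^ e * x) = algebraMap ℚ_[p] (PadicAlgCl p) ((M : ℚ_[p]) ^ e * y) := by
    rw [map_mul, map_pow, map_natCast, hτ, map_mul, map_pow, map_natCast]
  rw [h2] at h1
  have h3 : IsIntegral ℤ ((M : ℚ_[p]) ^ e * y) :=
    (isIntegral_algebraMap_iff (algebraMap ℚ_[p] (PadicAlgCl p)).injective).mp h1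
  have h4 := norm_le_one_of_isIntegral _ h3
  have h5 : ‖(M : ℚ_[p])‖ = 1 := by
    rw [Padic.norm_natCast_eq_one_iff]
    exact (Nat.Prime.coprime_iff_not_dvd (Fact.out : p.Prime)).mpr hM
  rwa [norm_mul, norm_pow, h5, one_pow, one_mul] at h4

end Pool.Agent.H905R3.DML.Integral
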