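import Pool.Agent.H905R3.DML.Stmts
import Pool.Agent.H927R2.RD.Final2

set_option autoImplicit false

/-! Task Primes of the project H905-DML. -/

namespace Pool.Agent.H905R3.DML.Primes

open Pool.Agent.H905R3.DML Pool.Agent.H927R2.RD

theorem taskPrimes : TaskPrimes := by
  classical
  intro s M hM T
  obtain ⟨d₀, hd₀⟩ := main_set s (T + ∑ p ∈ M.primeFactors, 1 / (p : ℝ))
  refine ⟨d₀, fun d hd => ?_⟩
  obtain ⟨P, hP, hsum⟩ := hd₀ d hd
  refine ⟨P.filter fun p => ¬ p ∣ M, fun p hp => ?_, ?_⟩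
  · obtain ⟨h1, h2⟩ := Finset.mem_filter.1 hp
    obtain ⟨-, h4, h5, h6⟩ := hP p h1
    exact ⟨by omega, h2, h5, h6⟩
  · have h1 : ∑ p ∈ P, 1 / (p : ℝ) = ∑ p ∈ P.filter (fun p => ¬ p ∣ M), 1 / (p : ℝ) +
        ∑ p ∈ P.filter (fun p => p ∣ M), 1 / (p : ℝ) := by
      rw [add_comm, Finset.sum_filter_add_sum_filter_not]
    have h2 : ∑ p ∈ P.filter (fun p => p ∣ M), 1 / (p : ℝ) ≤ ∑ p ∈ M.primeFactors, 1 / (p : ℝ) := by
      apply Finset.sum_le_sum_of_subset_of_nonneg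
      · intro p hp
        obtain ⟨h3, h4⟩ := Finset.mem_filter.1 hp
        obtain ⟨-, -, h5, -⟩ := hP p h3
        exact Nat.mem_primeFactors.2 ⟨h5.out, h4, hM⟩
      · intro p _ _
        positivity
    linarith

end Pool.Agent.H905R3.DML.Primes
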