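import Pool.Agent.H905R3.DML.Stmts

/-! Task Product of project H905-DML: independence of the blocks. -/

set_option autoImplicit false

namespace Pool.Agent.H905R3.DML.Product

open Pool.Agent.H905R3.DML

theorem taskProduct : TaskProduct := by
  intro p _ r n d E δ hδ0 hδ
  have e : {v : Idx r n d → ZMod p // ∀ i, (fun e => v ⟨i, e⟩) ∈ E i} ≃ (∀ i : Fin r, E i) :=
    { toFun := fun v i => ⟨fun e => v.1 ⟨i, e⟩, v.2 i⟩
      invFun := fun w => ⟨fun q => (w q.1).1 q.2, fun i => (w i).2⟩
      left_inv := fun v => by
        apply Subtype.ext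
        funext q
        rfl
      right_inv := fun w => by
        funext i
        rfl }
  rw [Nat.card_congr e, Nat.card_pi]
  have hc : Fintype.card (Idx r n d) = ∑ i, Fintype.card (CI (n i) d) := Fintype.card_sigma
  rw [hc, ← Finset.prod_pow_eq_pow_sum, ← Finset.prod_mul_distrib, Nat.cast_prod]
  refine Finset.prod_le_prod ?_ ?_
  · intro i _
    exact mul_nonneg (hδ0 i) (by positivity)
  · intro i _
    exact hδ i

end Pool.Agent.H905R3.DML.Product
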