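import Pool.Agent.H927R2.RD.Defs

/-!
# Dynamical Mordell–Lang for almost all products of low-dimensional polynomial maps:
definitions and tasks
-/

set_option autoImplicit false

namespace Pool.Agent.H905R3.DML

open MvPolynomial Pool.Agent.H936R2
open Pool.Agent.H927R2.RD (nper)

/-- Indices of the coefficients of a polynomial self-map of `A^n` of degree at most `d` in each
variable. -/
abbrev CI (n d : ℕ) : Type := Fin n × (Fin n → Fin (d + 1))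

/-- The polynomial in `n` variables with coefficients `c`. -/
noncomputable def bpoly {R : Type} [CommRing R] {n d : ℕ} (c : (Fin n → Fin (d + 1)) → R) :
    MvPolynomial (Fin n) R :=
  ∑ κ : Fin n → Fin (d + 1), monomial (Finsupp.equivFunOnFinite.symm fun i => (κ i : ℕ)) (c κ)

/-- The polynomial self-map of `A^n` with coefficients `c`. -/
noncomputable def bsys {R : Type} [CommRing R] {n d : ℕ} (c : CI n d → R) :
    Fin n → MvPolynomial (Fin n) R :=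
  fun j => bpoly fun κ => c (j, κ)

/-- The variables of `A^(n 0) × ... × A^(n (r-1))`. -/
abbrev Var (r : ℕ) (n : Fin r → ℕ) : Type := Σ i : Fin r, Fin (n i)

/-- Indices of the coefficients of a product of polynomial self-maps. -/
abbrev Idx (r : ℕ) (n : Fin r → ℕ) (d : ℕ) : Type := Σ i : Fin r, CI (n i) d

/-- The product `F_0 × ... × F_(r-1)` of the polynomial self-maps `F_i` of `A^(n i)` with
coefficients `v`, as a polynomial self-map of `A^(n 0 + ... + n (r-1))`. -/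
noncomputable def psys {R : Type} [CommRing R] {r : ℕ} {n : Fin r → ℕ} {d : ℕ}
    (v : Idx r n d → R) : Var r n → MvPolynomial (Var r n) R :=
  fun q => rename (fun k => (⟨q.1, k⟩ : Var r n)) (bsys (fun e => v ⟨q.1, e⟩) q.2)

/-- The self-map of `ℂ^ι` given by integral polynomials. -/
noncomputable def cmap {ι : Type} (G : ι → MvPolynomial ι ℤ) (x : ι → ℂ) : ι → ℂ :=
  fun i => eval x (map (Int.castRingHom ℂ) (G i))

/-- The Dynamical Mordell-Lang property of the orbit of `α`: for every closed `V ⊆ A^ι` the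
return set is a finite union of arithmetic progressions. -/
def DMLAt {ι : Type} (G : ι → MvPolynomial ι ℤ) (α : ι → ℂ) : Prop :=
  ∀ S : Set (MvPolynomial ι ℂ),
    ∃ T : Finset (ℕ × ℕ), {k : ℕ | ∀ g ∈ S, eval ((cmap G)^[k] α) g = 0}
      = {k : ℕ | ∃ q ∈ T, ∃ m : ℕ, k = q.1 * m + q.2}

/-- The Dynamical Mordell-Lang property of the orbits of all points whose coordinates are in `L`
and integral up to powers of `M`. -/
def DMLInt {ι : Type} (L : Subfield ℂ) (M : ℕ) (G : ι → MvPolynomial ι ℤ) : Prop :=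
  ∀ α : ι → ℂ, (∀ q, α q ∈ L ∧ ∃ e : ℕ, IsIntegral ℤ ((M : ℂ) ^ e * α q)) → DMLAt G α

/-- The polynomials modulo `p`. -/
noncomputable def modp (p : ℕ) {ι : Type} (G : ι → MvPolynomial ι ℤ) :
    ι → MvPolynomial ι (ZMod p) := fun i => map (Int.castRingHom (ZMod p)) (G i)

/-- The periodic points modulo `p` are not critical. -/
def GoodBlock {p n d : ℕ} (c : CI n d → ZMod p) : Prop :=
  ∀ x : Fin n → ZMod p, x ∈ Function.periodicPts (pt (bsys c)) → (jac (bsys c) x).det ≠ 0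

/-- Tables of values and Jacobian matrices. -/
abbrev Table (p n : ℕ) : Type :=
  (Fin n → ZMod p) → ((Fin n → ZMod p) × Matrix (Fin n) (Fin n) (ZMod p))

/-- The table of a polynomial self-map modulo `p`. -/
noncomputable def btab {p n d : ℕ} (c : CI n d → ZMod p) : Table p n :=
  fun x => (pt (bsys c) x, jac (bsys c) x)

/-- The periodic points of the table have invertible matrices. -/
def GoodTable {p n : ℕ} (A : Table p n) : Prop :=
  ∀ x : Fin n → ZMod p, x ∈ Function.periodicPts (fun x => (A x).1) → (A x).2.det ≠ 0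

/-- The probability of an invertible matrix. -/
noncomputable def gg (p n : ℕ) : ℝ := ∏ j ∈ Finset.range n, (1 - 1 / (p : ℝ) ^ (j + 1))

/-- The probability that a table is good. -/
noncomputable def prob (p n : ℕ) [Fact p.Prime] : ℝ :=
  (∑ φ : (Fin n → ZMod p) → (Fin n → ZMod p), gg p n ^ nper φ) / ((p : ℝ) ^ n) ^ (p ^ n)

/-! ### Tasks -/

/-- The criterion modulo `p`. -/
def TaskCore : Prop := ∀ (p : ℕ) [Fact p.Prime] (ι : Type) [Fintype ι] [DecidableEq ι]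
  (G : ι → MvPolynomial ι ℤ) (α : ι → ℂ) (τ : ℂ →+* PadicAlgCl p) (y : ι → ℤ_[p]),
  (∀ i, τ (α i) = algebraMap ℚ_[p] (PadicAlgCl p) (y i : ℚ_[p])) →
  (∃ M : ℕ, ∀ k, M ≤ k →
    (jac (modp p G) ((pt (modp p G))^[k] fun i => PadicInt.toZMod (y i))).det ≠ 0) →
  DMLAt G α

/-- From the blocks to the product. -/
def TaskBlock : Prop := ∀ (p : ℕ) [Fact p.Prime] (r : ℕ) (n : Fin r → ℕ) (d : ℕ)
  (v : Idx r n d → ZMod p), (∀ i, GoodBlock fun e => v ⟨i, e⟩) →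
  ∀ w : Var r n → ZMod p, ∃ M : ℕ, ∀ k, M ≤ k → (jac (psys v) ((pt (psys v))^[k] w)).det ≠ 0

/-- The coefficients modulo `p` and the tables are equidistributed. -/
def TaskTable : Prop := ∀ (p : ℕ) [Fact p.Prime] (n d : ℕ), 2 * p ≤ d → ∀ E : Set (Table p n),
  Nat.card {c : CI n d → ZMod p // btab c ∈ E} * Nat.card (Table p n) =
    Nat.card E * Nat.card (CI n d → ZMod p)

/-- The number of good tables. -/
def TaskCount : Prop := ∀ (p : ℕ) [Fact p.Prime] (n : ℕ),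
  (Nat.card {A : Table p n // GoodTable A} : ℝ) = prob p n * (Nat.card (Table p n) : ℝ)

/-- Lower bounds for the probabilities. -/
def TaskBounds : Prop := ∃ c : ℝ, 0 < c ∧ ∀ (p : ℕ) [Fact p.Prime],
  c ≤ prob p 1 ∧ c ≤ prob p 2 ∧ c / p ≤ prob p 3

/-- From residue classes to boxes. -/
def TaskDensity : Prop := ∀ (ι : Type) [Fintype ι] (Q : (ι → ℤ) → Prop) (P : Finset ℕ)
  (G : ∀ p : ℕ, Set (ι → ZMod p)) (δ : ℕ → ℝ), (∀ p ∈ P, p.Prime) → (∀ p ∈ P, δ p ≤ 1) →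
  (∀ p ∈ P, δ p * (p : ℝ) ^ Fintype.card ι ≤ (Nat.card (G p) : ℝ)) →
  (∀ v : ι → ℤ, ∀ p ∈ P, (fun i => (v i : ZMod p)) ∈ G p → Q v) →
  ∃ H₀ : ℕ, ∀ H : ℕ, H₀ ≤ H →
    (Nat.card {v : ι → ℤ // (∀ i, |v i| ≤ (H : ℤ)) ∧ ¬ Q v} : ℝ) ≤
      2 * (∏ p ∈ P, (1 - δ p)) * (2 * H + 1 : ℝ) ^ Fintype.card ι

/-- Independence of the blocks. -/
def TaskProduct : Prop := ∀ (p : ℕ) [Fact p.Prime] (r : ℕ) (n : Fin r → ℕ) (d : ℕ)
  (E : ∀ i : Fin r, Set (CI (n i) d → ZMod p)) (δ : Fin r → ℝ), (∀ i, 0 ≤ δ i) →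
  (∀ i, δ i * (p : ℝ) ^ Fintype.card (CI (n i) d) ≤ (Nat.card (E i) : ℝ)) →
  (∏ i, δ i) * (p : ℝ) ^ Fintype.card (Idx r n d) ≤
    (Nat.card {v : Idx r n d → ZMod p // ∀ i, (fun e => v ⟨i, e⟩) ∈ E i} : ℝ)

/-- Primes with embeddings of a finitely generated field. -/
def TaskPrimes : Prop := ∀ (s : Finset ℂ) (M : ℕ), M ≠ 0 → ∀ T : ℝ, ∃ d₀ : ℕ, ∀ d : ℕ, d₀ ≤ d →
  ∃ P : Finset ℕ, (∀ p ∈ P, 2 * p ≤ d ∧ ¬ p ∣ M ∧ ∃ _ : Fact p.Prime,
    ∃ τ : ℂ →+* PadicAlgCl p, ∀ x ∈ Subfield.closure (s : Set ℂ),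
      ∃ y : ℚ_[p], τ x = algebraMap ℚ_[p] (PadicAlgCl p) y) ∧
    T ≤ ∑ p ∈ P, 1 / (p : ℝ)

/-- Integrality. -/
def TaskIntegral : Prop := ∀ (p : ℕ) [Fact p.Prime] (M : ℕ), ¬ p ∣ M →
  ∀ (τ : ℂ →+* PadicAlgCl p) (x : ℂ) (y : ℚ_[p]), τ x = algebraMap ℚ_[p] (PadicAlgCl p) y →
  (∃ e : ℕ, IsIntegral ℤ ((M : ℂ) ^ e * x)) → ‖y‖ ≤ 1

/-- The statement of the main theorem. -/
def Main : Prop := ∀ (r : ℕ) (n : Fin r → ℕ), (∀ i, 1 ≤ n i ∧ n i ≤ 3) →
  (∀ i j, n i = 3 → n j = 3 → i = j) → ∀ (s : Finset ℂ) (M : ℕ), M ≠ 0 → ∀ ε : ℝ, 0 < ε →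
  ∃ d₀ : ℕ, ∀ d : ℕ, d₀ ≤ d → ∃ H₀ : ℕ, ∀ H : ℕ, H₀ ≤ H →
    (Nat.card {v : Idx r n d → ℤ // (∀ i, |v i| ≤ (H : ℤ)) ∧
      ¬ DMLInt (Subfield.closure (s : Set ℂ)) M (psys v)} : ℝ) ≤
        ε * (2 * H + 1 : ℝ) ^ Fintype.card (Idx r n d)

end Pool.Agent.H905R3.DML
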