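import Pool.Agent.H905R3.DML.Stmts
import Pool.Agent.H927R2.RD.T3

set_option autoImplicit false

/-! Task Table: equidistribution of the tables of values and Jacobian matrices. -/

namespace Pool.Agent.H905R3.DML.Table

open MvPolynomial Pool.Agent.H936R2
open Pool.Agent.H927R2.RD (T3_card)

/-- The exponent vector. -/
noncomputable def bexpo {n d : ℕ} (κ : Fin n → Fin (d + 1)) : Fin n →₀ ℕ :=
  Finsupp.equivFunOnFinite.symm fun i => (κ i : ℕ)

theorem bexpo_inj {n d : ℕ} {κ κ' : Fin n → Fin (d + 1)} (h : bexpo κ = bexpo κ') : κ = κ' := by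
  funext i
  have := DFunLike.congr_fun h i
  exact Fin.ext this

theorem bpoly_coeff {R : Type} [CommRing R] {n d : ℕ} {G : MvPolynomial (Fin n) R}
    (hG : ∀ i, degreeOf i G ≤ d) :
    bpoly (fun κ : Fin n → Fin (d + 1) => coeff (bexpo κ) G) = G := by
  classical
  ext m
  unfold bpoly
  rw [coeff_sum]
  simp only [coeff_monomial]
  change ∑ κ : Fin n → Fin (d + 1), (if bexpo κ = m then coeff (bexpo κ) G else 0) = coeff m G
  by_cases hm : ∀ i, m i ≤ d
  · set κ0 : Fin n → Fin (d + 1) := fun i => ⟨m i, Nat.lt_succ_of_le (hm i)⟩ with hκ0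
    have hex : bexpo κ0 = m := by
      ext i
      rfl
    rw [Finset.sum_eq_single κ0]
    · rw [if_pos hex, hex]
    · intro κ _ hne
      rw [if_neg]
      intro h
      exact hne (bexpo_inj (h.trans hex.symm))
    · intro h
      exact absurd (Finset.mem_univ _) h
  · have h0 : coeff m G = 0 := by
      by_contra hne
      apply hm
      intro i
      exact degreeOf_le_iff.1 (hG i) m (mem_support_iff.2 hne)
    rw [h0]
    apply Finset.sum_eq_zero
    intro κ _
    rw [if_neg]
    intro h
    apply hm
    intro i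
    rw [← h]
    exact Nat.lt_succ_iff.1 (κ i).2

theorem bpoly_add {R : Type} [CommRing R] {n d : ℕ} (c c' : (Fin n → Fin (d + 1)) → R) :
    bpoly (c + c') = bpoly c + bpoly c' := by
  unfold bpoly
  rw [← Finset.sum_add_distrib]
  exact Finset.sum_congr rfl fun κ _ => by rw [Pi.add_apply, map_add]

theorem bsys_add {R : Type} [CommRing R] {n d : ℕ} (c c' : CI n d → R) (j : Fin n) :
    bsys (c + c') j = bsys c j + bsys c' j := by
  unfold bsys
  rw [← bpoly_add]
  rfl

theorem bsys_coeff {R : Type} [CommRing R] {n d : ℕ} (F : Fin n → MvPolynomial (Fin n) R)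
    (hF : ∀ j i, degreeOf i (F j) ≤ d) :
    ∃ c : CI n d → R, ∀ j, bsys c j = F j := by
  refine ⟨fun e => coeff (bexpo e.2) (F e.1), fun j => ?_⟩
  have h := bpoly_coeff (d := d) (hF j)
  exact h

theorem btab_fst {p n d : ℕ} (c : CI n d → ZMod p) (x : Fin n → ZMod p) (j : Fin n) :
    (btab c x).1 j = eval x (bsys c j) := rfl

theorem btab_snd {p n d : ℕ} (c : CI n d → ZMod p) (x : Fin n → ZMod p) (i j : Fin n) :
    (btab c x).2 i j = eval x (pderiv j (bsys c i)) := rfl

theorem btab_add {p n d : ℕ} (c c' : CI n d → ZMod p) : btab (c + c') = btab c + btab c' := by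
  funext x
  rw [Pi.add_apply]
  refine Prod.ext ?_ ?_
  · rw [Prod.fst_add]
    funext j
    rw [Pi.add_apply]
    change eval x (bsys (c + c') j) = eval x (bsys c j) + eval x (bsys c' j)
    rw [bsys_add, map_add]
  · rw [Prod.snd_add]
    ext i j
    rw [Matrix.add_apply]
    change eval x (pderiv j (bsys (c + c') i)) =
      eval x (pderiv j (bsys c i)) + eval x (pderiv j (bsys c' i))
    rw [bsys_add, map_add, map_add]

/-- the indicator polynomial of a point -/
theorem exists_L {p : ℕ} [Fact p.Prime] (n : ℕ) (a : Fin n → ZMod p) :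
    ∃ L : MvPolynomial (Fin n) (ZMod p), (∀ i, degreeOf i L ≤ p - 1) ∧ eval a L = 1 ∧
      ∀ y : Fin n → ZMod p, y ≠ a → eval y L = 0 := by
  classical
  have hp1 : p - 1 ≠ 0 := by
    have := (Fact.out : p.Prime).two_le
    omega
  refine ⟨∏ k, (1 + C (-1) * (X k + C (-(a k))) ^ (p - 1)), ?_, ?_, ?_⟩
  · intro i
    refine (degreeOf_prod_le _ _ _).trans ?_
    have h : ∀ k ∈ (Finset.univ : Finset (Fin n)),
        degreeOf i (1 + C (-1) * (X k + C (-(a k))) ^ (p - 1) : MvPolynomial (Fin n) (ZMod p))
          ≤ if i = k then p - 1 else 0 := by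
      intro k _
      refine (degreeOf_add_le _ _ _).trans (max_le ?_ ?_)
      · rw [degreeOf_one]
        exact Nat.zero_le _
      · refine (degreeOf_C_mul_le _ _ _).trans ((degreeOf_pow_le _ _ _).trans ?_)
        have h1 : degreeOf i (X k + C (-(a k)) : MvPolynomial (Fin n) (ZMod p))
            ≤ if i = k then 1 else 0 := by
          refine (degreeOf_add_le _ _ _).trans (max_le ?_ ?_)
          · rw [degreeOf_X]
          · rw [degreeOf_C]
            exact Nat.zero_le _
        refine (Nat.mul_le_mul_left _ h1).trans ?_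
        by_cases hik : i = k
        · rw [if_pos hik, if_pos hik, mul_one]
        · rw [if_neg hik, if_neg hik, mul_zero]
    refine (Finset.sum_le_sum h).trans ?_
    rw [Finset.sum_ite_eq]
    split_ifs
    · exact le_rfl
    · exact Nat.zero_le _
  · rw [map_prod]
    apply Finset.prod_eq_one
    intro k _
    rw [map_add, map_one, map_mul, map_pow, map_add, eval_X, eval_C, eval_C, add_neg_cancel,
      zero_pow hp1, mul_zero, add_zero]
  · intro y hy
    obtain ⟨k, hk⟩ := Function.ne_iff.1 hy
    rw [map_prod]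
    apply Finset.prod_eq_zero (Finset.mem_univ k)
    rw [map_add, map_one, map_mul, map_pow, map_add, eval_X, eval_C, eval_C]
    have h1 : y k + -(a k) ≠ 0 := by
      rw [← sub_eq_add_neg]
      exact sub_ne_zero.2 hk
    rw [ZMod.pow_card_sub_one_eq_one h1]
    ring

/-- interpolation of values and gradients -/
theorem exists_poly {p : ℕ} [Fact p.Prime] (n d : ℕ) (hd : 2 * p ≤ d) (a : Fin n → ZMod p)
    (b : ZMod p) (w : Fin n → ZMod p) :
    ∃ G : MvPolynomial (Fin n) (ZMod p), (∀ i, degreeOf i G ≤ d) ∧ eval a G = b ∧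
      (∀ j, eval a (pderiv j G) = w j) ∧
      ∀ y : Fin n → ZMod p, y ≠ a → eval y G = 0 ∧ ∀ j, eval y (pderiv j G) = 0 := by
  classical
  have hp2 := (Fact.out : p.Prime).two_le
  obtain ⟨L, hLd, hLa, hLy⟩ := exists_L n a
  obtain ⟨t, ht⟩ : ∃ t : Fin n → ZMod p, ∀ j, t j = w j - 2 * b * eval a (pderiv j L) :=
    ⟨_, fun _ => rfl⟩
  set H : MvPolynomial (Fin n) (ZMod p) := C b + ∑ k, C (t k) * (X k + C (-(a k))) with hH
  have hHd : ∀ i, degreeOf i H ≤ 1 := by
    intro i
    refine (degreeOf_add_le _ _ _).trans (max_le ?_ ?_)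
    · rw [degreeOf_C]
      exact Nat.zero_le _
    · refine (degreeOf_sum_le _ _ _).trans ?_
      rw [Finset.sup_le_iff]
      intro k _
      refine (degreeOf_C_mul_le _ _ _).trans ((degreeOf_add_le _ _ _).trans (max_le ?_ ?_))
      · rw [degreeOf_X]
        split_ifs
        · exact le_rfl
        · exact Nat.zero_le _
      · rw [degreeOf_C]
        exact Nat.zero_le _
  have hHa : eval a H = b := by
    rw [hH, map_add, eval_C, map_sum, Finset.sum_eq_zero, add_zero]
    intro k _
    rw [map_mul, map_add, eval_X, eval_C, eval_C, add_neg_cancel, mul_zero]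
  have hHj : ∀ j, eval a (pderiv j H) = t j := by
    intro j
    rw [hH, map_add, pderiv_C, zero_add, map_sum, map_sum]
    have hl : ∀ l ∈ (Finset.univ : Finset (Fin n)), eval a (pderiv j
        (C (t l) * (X l + C (-(a l))) : MvPolynomial (Fin n) (ZMod p))) =
        if l = j then t l else 0 := by
      intro l _
      rw [pderiv_C_mul, map_add, pderiv_C, add_zero, map_mul, eval_C]
      by_cases hlj : l = j
      · rw [if_pos hlj, hlj, pderiv_X_self, map_one, mul_one]
      · rw [if_neg hlj, pderiv_X_of_ne hlj, map_zero, mul_zero]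
    rw [Finset.sum_congr rfl hl, Finset.sum_ite_eq', if_pos (Finset.mem_univ j)]
  set G : MvPolynomial (Fin n) (ZMod p) := L * L * H with hG
  have hGd : ∀ (y : Fin n → ZMod p) (j : Fin n), eval y (pderiv j G) =
      2 * eval y L * eval y (pderiv j L) * eval y H +
        eval y L * eval y L * eval y (pderiv j H) := by
    intro y j
    rw [hG, pderiv_mul, pderiv_mul]
    simp only [map_add, map_mul]
    ring
  refine ⟨G, ?_, ?_, ?_, ?_⟩
  · intro i
    rw [hG]
    refine (degreeOf_mul_le _ _ _).trans ?_
    have h1 := degreeOf_mul_le i L L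
    have h2 := hLd i
    have h3 := hHd i
    omega
  · rw [hG, map_mul, map_mul, hLa, hHa]
    ring
  · intro j
    rw [hGd, hLa, hHa, hHj, ht]
    ring
  · intro y hy
    refine ⟨?_, fun j => ?_⟩
    · rw [hG, map_mul, map_mul, hLy y hy]
      ring
    · rw [hGd, hLy y hy]
      ring

/-- The coefficients modulo `p` and the tables are equidistributed. -/
theorem taskTable : TaskTable := by
  intro p _ n d hd E
  classical
  set f : (CI n d → ZMod p) →+ Table p n := AddMonoidHom.mk' btab btab_add with hf
  have hsurj : Function.Surjective f := by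
    intro A
    choose G hG1 hG2 hG3 hG4 using fun (x : Fin n → ZMod p) (j : Fin n) =>
      exists_poly n d hd x ((A x).1 j) ((A x).2 j)
    set F : Fin n → MvPolynomial (Fin n) (ZMod p) := fun j => ∑ x, G x j with hF
    have hFd : ∀ j i, degreeOf i (F j) ≤ d := by
      intro j i
      refine (degreeOf_sum_le _ _ _).trans ?_
      rw [Finset.sup_le_iff]
      intro x _
      exact hG1 x j i
    obtain ⟨c, hb⟩ := bsys_coeff F hFd
    refine ⟨c, ?_⟩
    have hft : f c = btab c := rfl
    rw [hft]
    funext x
    refine Prod.ext ?_ ?_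
    · funext j
      rw [btab_fst, hb, hF, map_sum, Finset.sum_eq_single x]
      · exact hG2 x j
      · intro y _ hyx
        exact (hG4 y j x (Ne.symm hyx)).1
      · intro h
        exact absurd (Finset.mem_univ _) h
    · ext i j
      rw [btab_snd, hb, hF, map_sum, map_sum, Finset.sum_eq_single x]
      · exact hG3 x i j
      · intro y _ hyx
        exact (hG4 y i x (Ne.symm hyx)).2 j
      · intro h
        exact absurd (Finset.mem_univ _) h
  have h1 : Finite (Matrix (Fin n) (Fin n) (ZMod p)) := by
    unfold Matrix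
    infer_instance
  have h2 : Finite (Table p n) := inferInstance
  exact T3_card f hsurj E

end Pool.Agent.H905R3.DML.Table
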